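import Pool.Agent.MP_c69980_ag.H43.Spec5

/-!
Equations of functions that lie in all logarithmic valuation rings.
-/

set_option autoImplicit false

namespace Pool.Agent.MP_c69980_ag.H43

open MvPolynomial H60 Finset

section
variable {t a M : ℕ} {K : Type} [Field K] [Algebra ℂ K]

lemma Pi_aeval_mem (L : IntermediateField ℂ K) {ι : Type} {y : ι → K} (hy : ∀ i, y i ∈ L)
    (P : MvPolynomial ι ℂ) : aeval y P ∈ L := by
  induction P using MvPolynomial.induction_on with
  | C c => rw [aeval_C]; exact L.algebraMap_mem c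
  | add p q hp hq => rw [map_add]; exact add_mem hp hq
  | mul_X p i hp => rw [map_mul, aeval_X]; exact mul_mem hp (hy i)

lemma Pi_pres {w : Fin M → Option (Fin t)} {PP : PT M t a} {u : Fin M → K} {m : ℕ}
    {J : Fin m → Fin (t + a)} {γ : Fin m → Fin (t + a) → K} {E : Fin m → Derivation ℂ K K}
    {β : Cht M t} (tk : TK w PP u J γ E) (hβ : Ch w β u) (j : Fin m) :
    ∀ x ∈ K0 u, E j x ∈ K0 u := by
  have h1 : ∀ x, co β u x ∈ K0 u := fun x => IntermediateField.subset_adjoin _ _ (co_mem β u x)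
  have h2 : ∀ x, E j (co β u x) ∈ K0 u := fun x => by
    rw [tk.act β hβ]
    exact sum_mem fun i _ => mul_mem (tk.mem j i) (Pi_aeval_mem _ h1 _)
  intro x hx
  induction hx using IntermediateField.adjoin_induction with
  | mem x hx =>
    obtain ⟨c, b, rfl⟩ := hx
    rw [div_eq_co hβ, Derivation.leibniz_div]
    simp only [smul_eq_mul]
    exact mul_mem (pow_mem (inv_mem (h1 _)) _)
      (sub_mem (mul_mem (h1 _) (h2 _)) (mul_mem (h1 _) (h2 _)))
  | algebraMap c => rw [Derivation.map_algebraMap]; exact zero_mem _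
  | add x y _ _ hx hy => rw [map_add]; exact add_mem hx hy
  | inv x h hx =>
    rw [Derivation.leibniz_inv, smul_eq_mul]
    exact mul_mem (neg_mem (pow_mem (inv_mem h) _)) hx
  | mul x y h h' hx hy =>
    rw [Derivation.leibniz, smul_eq_mul, smul_eq_mul]
    exact add_mem (mul_mem h hy) (mul_mem h' hx)

lemma Pi_quot {u : Fin M → K} {g : K} (hg : g ∈ K0 u) : ∃ (F G : PR M) (d : ℕ),
    F.IsHomogeneous d ∧ G.IsHomogeneous d ∧ aeval u G ≠ 0 ∧ g = aeval u F / aeval u G := by
  have h0 : ∃ (F G : PR M) (d : ℕ), F.IsHomogeneous d ∧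
      G.IsHomogeneous d ∧ aeval u G ≠ 0 ∧ 0 = aeval u F / aeval u G :=
    ⟨0, 1, 0, isHomogeneous_zero _ _ _, isHomogeneous_one _ _, by simp, by simp⟩
  induction hg using IntermediateField.adjoin_induction with
  | mem x hx =>
    obtain ⟨i, j, rfl⟩ := hx
    by_cases h : u j = 0
    · rwa [h, div_zero]
    · exact ⟨X i, X j, 1, isHomogeneous_X _ _, isHomogeneous_X _ _, by simpa, by simp⟩
  | algebraMap c => exact ⟨C c, 1, 0, isHomogeneous_C _ _, isHomogeneous_one _ _, by simp, by simp⟩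
  | add a b _ _ ha hb =>
    obtain ⟨F, G, d, hF, hG, hx, rfl⟩ := ha
    obtain ⟨F', G', d', hF', hG', hx', rfl⟩ := hb
    exact ⟨_, _, _, (hF.mul hG').add (hG.mul hF'), hG.mul hG', by simp [hx, hx'], by
      rw [div_add_div _ _ hx hx']; simp⟩
  | inv a _ ha =>
    obtain ⟨F, G, d, hF, hG, hx, rfl⟩ := ha
    by_cases h : aeval u F = 0
    · rwa [h, zero_div, inv_zero]
    · exact ⟨G, F, d, hG, hF, h, inv_div _ _⟩
  | mul a b _ _ ha hb =>
    obtain ⟨F, G, d, hF, hG, hx, rfl⟩ := ha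
    obtain ⟨F', G', d', hF', hG', hx', rfl⟩ := hb
    exact ⟨_, _, _, hF.mul hF', hG.mul hG', by simp [hx, hx'], by rw [div_mul_div_comm]; simp⟩

/-- A common denominator. -/
lemma Pi_den {u : Fin M → K} (s : Finset K) (hs : ∀ g ∈ s, g ∈ K0 u) : ∃ (Q : PR M) (e : ℕ),
    Q.IsHomogeneous e ∧ aeval u Q ≠ 0 ∧
      ∀ g ∈ s, ∃ P : PR M, P.IsHomogeneous e ∧ aeval u P / aeval u Q = g := by
  classical
  induction s using Finset.induction_on with
  | empty => exact ⟨1, 0, isHomogeneous_one _ _, by simp, by simp⟩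
  | insert g s _ ih =>
    obtain ⟨Q, e, h1, h2, h3⟩ := ih fun x hx => hs x (mem_insert_of_mem hx)
    obtain ⟨F, G, d, hF, hG, h4, h5⟩ := Pi_quot (hs g (mem_insert_self _ _))
    refine ⟨Q * G, e + d, h1.mul hG, by simp [h2, h4], fun x hx => ?_⟩
    rcases mem_insert.1 hx with rfl | hx
    · exact ⟨Q * F, h1.mul hF, by rw [map_mul, map_mul, mul_div_mul_left _ _ h2, h5]⟩
    · obtain ⟨P, hP, rfl⟩ := h3 x hx
      exact ⟨P * G, hP.mul hG, by rw [map_mul, map_mul, mul_div_mul_right _ _ h4]⟩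

/-- Derivations extend to algebraic extensions. -/
lemma Pi_ext (L : Type) [Field L] [Algebra K L] [Algebra ℂ L] [IsScalarTower ℂ K L]
    [Algebra.IsAlgebraic K L] (E : Derivation ℂ K K) :
    ∃ E' : Derivation ℂ L L, ∀ x, E' (algebraMap K L x) = algebraMap K L (E x) := by
  obtain ⟨s, hs⟩ := exists_isTranscendenceBasis ℂ K
  obtain ⟨E', hE'⟩ := der_exists (M := L) (hs.algebraMap_comp (A := L))
    fun i => algebraMap K L (E i)
  have : E'.compAlgebraMap K = (Algebra.linearMap K L).compDer E := der_ext hs hE'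
  exact ⟨E', fun x => congrArg (fun D : Derivation ℂ K L => D x) this⟩

lemma Pi_int (h : STame) (L : IntermediateField ℂ K) [Algebra.IsAlgebraic L K] {m : ℕ}
    (E : Fin m → Derivation ℂ K K) (A : Subring K) (h1 : ∀ c, algebraMap ℂ K c ∈ A)
    (h2 : ∀ j, ∀ φ ∈ L, E j φ / φ ∈ A) {g : K}
    (hg : ∀ V : ValuationSubring K, (∀ c, algebraMap ℂ K c ∈ V) → (∀ j f, E j f / f ∈ V) →
      g ∈ V) : IsIntegral A g := by
  let Kb := AlgebraicClosure K
  choose Eb hEb using fun j => Pi_ext Kb (E j)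
  let F : Subfield Kb := L.toSubfield.map (algebraMap K Kb)
  have hL : Algebra.IsAlgebraic L Kb := Algebra.IsAlgebraic.trans L K Kb
  have hF : ∀ x : Kb, IsAlgebraic F x := fun x =>
    (Algebra.IsAlgebraic.isAlgebraic (R := L) x).ringHom_of_comp_eq
      ((algebraMap L Kb).codRestrict F fun y => ⟨y, y.2, rfl⟩) (RingHom.id Kb)
      (RingHom.injective _) rfl
  rw [← isIntegral_algebraMap_iff (algebraMap K Kb).injective]
  refine int_of_val fun V hV => ?_
  have hC : ∀ c, algebraMap ℂ Kb c ∈ V := fun c => by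
    rw [IsScalarTower.algebraMap_apply ℂ K Kb]
    exact hV ⟨_, h1 c⟩
  refine hg (V.comap (algebraMap K Kb)) (fun c => hV ⟨_, h1 c⟩) fun j f => ?_
  rw [ValuationSubring.mem_comap, map_div₀, ← hEb]
  refine h Kb V (Eb j) F hC ?_ _ (hF _)
  rintro _ ⟨φ, hφ, rfl⟩
  rw [hEb, ← map_div₀]
  exact hV ⟨_, h2 j φ hφ⟩

end

theorem sPi (h : STame) : SPi := by
  intro t a M w PP K _ _ u m J γ E β Γ tk hβ halg hV
  classical
  let A : Subring K := Subring.closure
    (Set.range (algebraMap ℂ K) ∪ {x | ∃ j, ∃ φ ∈ K0 u, x = E j φ / φ})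
  have hA : ∀ x ∈ A, x ∈ K0 u := by
    have : A ≤ (K0 u).toSubfield.toSubring := by
      refine Subring.closure_le.2 ?_
      rintro _ (⟨c, rfl⟩ | ⟨j, φ, hφ, rfl⟩)
      · exact (K0 u).algebraMap_mem c
      · exact (K0 u).div_mem (Pi_pres tk hβ j φ hφ) hφ
    exact this
  have hI : ∀ c, IsIntegral A (Γ c) := fun c =>
    Pi_int h (K0 u) E A (fun c => Subring.subset_closure (Or.inl ⟨c, rfl⟩))
      (fun j φ hφ => Subring.subset_closure (Or.inr ⟨j, φ, hφ, rfl⟩)) fun V h1 h2 => hV V h1 h2 c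
  choose p hp hp0 using hI
  let d := univ.sup fun c => (p c).natDegree
  have hd : ∀ c, (p c).natDegree ≤ d := fun c =>
    Finset.le_sup (f := fun c => (p c).natDegree) (mem_univ c)
  let q : Fin M → Polynomial A := fun c => p c * Polynomial.X ^ (d - (p c).natDegree)
  have hq : ∀ c, (q c).Monic := fun c => (hp c).mul (Polynomial.monic_X_pow _)
  have hqd : ∀ c, (q c).natDegree = d := fun c => by
    rw [(hp c).natDegree_mul (Polynomial.monic_X_pow _), Polynomial.natDegree_X_pow,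
      Nat.add_sub_cancel' (hd c)]
  have hq0 : ∀ c, Γ c ^ d + ∑ i ∈ range d, ((q c).coeff i : K) * Γ c ^ i = 0 := fun c => by
    have h1 : Polynomial.eval₂ (algebraMap A K) (Γ c) (q c) = 0 := by
      rw [Polynomial.eval₂_mul, hp0, zero_mul]
    rw [Polynomial.eval₂_eq_sum_range, sum_range_succ, (hq c).coeff_natDegree, map_one, one_mul,
      hqd, add_comm] at h1
    exact h1
  let b : Fin M → ℕ → A := fun c i => if i < d then (q c).coeff i else 0
  let s : Finset K := insert 0 ((univ ×ˢ range d).image fun x => ((q x.1).coeff x.2 : K))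
  have hb : ∀ c i, (b c i : K) ∈ s := fun c i => by
    by_cases hi : i < d
    · exact mem_insert_of_mem (mem_image.2 ⟨(c, i), by simpa using hi, by simp [b, hi]⟩)
    · simp [b, hi, s]
  obtain ⟨Q, e, h1, h2, h3⟩ := Pi_den (u := u) s (by
    intro g hg
    rcases mem_insert.1 hg with rfl | hg
    · exact zero_mem _
    · obtain ⟨x, -, rfl⟩ := mem_image.1 hg
      exact hA _ (Subtype.prop _))
  choose Pc h4 h5 using fun c i => h3 _ (hb c i)
  refine ⟨d, e, Q, Pc, h1, h4, h2, fun c => ?_, fun c i => ?_⟩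
  · rw [← hq0 c]
    congr 1
    refine sum_congr rfl fun i hi => ?_
    rw [h5]
    simp [b, mem_range.1 hi]
  · rw [h5]
    exact (b c i).2

end Pool.Agent.MP_c69980_ag.H43
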